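import Pool.Agent.H65PR.Main

/-!
# In every dimension there are smooth bounded domains whose wave fronts do not become dense

For every `n ≥ 2` there are a bounded domain `Ω ⊂ ℝⁿ` with `C^∞` boundary, a (nonempty) open set
`U ⊂ Ω` of positive measure and a nonempty open set `D ⊂ Ω` such that no front `F_t(P)`, `t ∈ ℝ`,
of a point `P ∈ U` meets `D`. In particular the fronts from `P` do not become dense.

`Ω` is a solid of revolution about the short axis of the oblate spheroid
`ρ²/25 + z²/16 < 1` whose focal sphere is `ρ = 3, z = 0` (a pair of points if `n = 2`): it is the
upper half of the spheroid together with a central pocket `z ≤ 0, ρ < 3` and an outer pocket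
`z ≤ 0, ρ > 3` below it, separated by a wall which touches the plane `z = 0` exactly at the focal
sphere. A photon that crosses the plane `z = 0` inside the focal sphere is reflected by the
spheroid so that it comes back inside the focal sphere, so that photons from the central pocket
never reach the outer one.
-/

set_option autoImplicit false

open Set Filter Topology MeasureTheory

namespace Pool.Agent.Results.MP_67b65f_an.TrappedFronts

open Pool.Agent.H800R2

/-- For every `n ≥ 2` there is a bounded domain `Ω` in `ℝⁿ` with smooth boundary and an open set
`U` of positive measure such that the fronts of no point `P` of `U` become dense: no front of `P`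
meets the nonempty open subset `D` of `Ω`. -/
theorem result : ∀ n : ℕ, 2 ≤ n → ∃ Ω : Set (Euc n), IsSmoothDomain Ω ∧
    ∃ U ⊆ Ω, ∃ D ⊆ Ω, IsOpen U ∧ 0 < volume U ∧ IsOpen D ∧ D.Nonempty ∧
      ∀ P ∈ U, (∀ t : ℝ, Disjoint (front Ω P t) D) ∧ ¬ FrontsBecomeDense Ω P :=
  fun _ hn => Pool.Agent.H65PR.main hn

end Pool.Agent.Results.MP_67b65f_an.TrappedFronts
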